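import Pool.Agent.H85.TU.Targets2

/-!
Row B3C of the board tum_modules: the type of the entries of two points of a blow-up.
-/

set_option autoImplicit false

namespace Pool.Agent.H26.TU.B3C

open Pool.Agent.H85.TU

variable {C : Type}

/-- the transposition of the two pairs of entries -/
abbrev rr : Fin 4 → Fin 4 := ![2, 3, 0, 1]

theorem LL_tp {n : ℕ} (z : Str bar (bD (LC C)) ℕ) (p : Fin n → ℕ) (i j : Fin n) :
    LL (tp z p) i j = zl z (p i) (p j) := by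
  have h : p ∘ ![i, j] = ![p i, p j] := by
    funext x
    fin_cases x <;> rfl
  exact congrArg (z ()) h

/-- label and equality value of two entries -/
def P (s : LC C) (i j : Fin 4) : C × Bool := (lb s i j, s.2.2.2 i j)

/-- the value for two points of sort `false` -/
def Q (z : Str bar (bD (LC C)) ℕ) (f g : ℕ) : C × Bool := (lb (zl z f g) 0 2, decide (f = g))

theorem P_reidx (s s' : LC C) (q : Fin 4 → Fin 4) (h : s.2.2 = reidx q s'.2.2) (i j : Fin 4) :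
    P s i j = P s' (q i) (q j) := by
  have e : q ∘ ![i, j] = ![q i, q j] := by
    funext x
    fin_cases x <;> rfl
  unfold P lb
  rw [h]
  refine Prod.ext ?_ rfl
  exact congrArg (s'.2.2.1 ()) e

section

variable {α : Set (TB C 3)} {z : Str bar (bD (LC C)) ℕ}

/-- transposition -/
theorem tr (hG : ∀ u v, tp z ![u, v] ∈ Ga α) (u v : ℕ) (i j : Fin 4) :
    P (zl z v u) i j = P (zl z u v) (rr i) (rr j) := by
  have h := (hG u v).1.2.2
  rw [LL_tp, LL_tp] at h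
  exact P_reidx _ _ _ h i j

/-- the diagonal -/
theorem dg (hG : ∀ u v, tp z ![u, v] ∈ Ga α) (u v : ℕ) (i j : Fin 4) :
    P (zl z u u) i j = P (zl z u v) (![0, 1, 0, 1] i) (![0, 1, 0, 1] j) := by
  have h := (hG u v).2.1.2.2
  rw [LL_tp, LL_tp] at h
  exact P_reidx _ _ _ h i j

/-- symmetry of the equality values -/
theorem sy (hG : ∀ u v, tp z ![u, v] ∈ Ga α) (u v : ℕ) (i j : Fin 4) :
    (zl z u v).2.2.2 i j = (zl z u v).2.2.2 j i := by
  have h := (hG u v).2.2.2.2.1.2.1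
  rw [LL_tp] at h
  rw [Bool.eq_iff_iff]
  exact ⟨h i j, h j i⟩

/-- the rows -/
theorem rw' (hG : ∀ u v, tp z ![u, v] ∈ Ga α) (hA : T_B3A) (hR : ∀ u v w, tp z ![u, v, w] ∈ Rr)
    (u f w : ℕ) (i : Fin 4) (hi : i < 2) (hf : S0 z f) (he : eqv (zl z u f) i 2) (k : Fin 4)
    (hk : 2 ≤ k) : P (zl z u w) i k = P (zl z f w) 0 k ∧
      lb (zl z u w) k i = lb (zl z f w) k 0 := by
  have h := hR u f w i hi
  rw [LL_tp, LL_tp, LL_tp] at h
  have hs : (zl z u f).2.1 = false := by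
    rw [((hA C α z hG).1 u f).2]
    exact hf
  obtain ⟨h1, h2, h3⟩ := h hs he k hk
  exact ⟨Prod.ext h1 h3, h2⟩

theorem outer (hG : ∀ u v, tp z ![u, v] ∈ Ga α) (hA : T_B3A)
    (hR : ∀ u v w, tp z ![u, v, w] ∈ Rr) (u v f g : ℕ) (i j : Fin 4) (hi : i < 2) (hj : j < 2)
    (hf : S0 z f) (hg : S0 z g) (hu : eqv (zl z u f) i 2) (hv : eqv (zl z v g) j 2) :
    P (zl z u v) i (rr j) = Q z f g ∧ P (zl z u v) (rr j) i = Q z g f := by
  have hk : 2 ≤ rr j := by
    have H : ∀ j : Fin 4, j < 2 → 2 ≤ rr j := by decide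
    exact H j hj
  have hrr : rr (rr j) = j := by
    have H : ∀ j : Fin 4, rr (rr j) = j := by decide
    exact H j
  obtain ⟨a1, a2⟩ := rw' hG hA hR u f v i hi hf hu (rr j) hk
  obtain ⟨b1, b2⟩ := rw' hG hA hR v g f j hj hg hv 2 le_rfl
  have a3 := congrArg Prod.snd a1
  have b3 := congrArg Prod.snd b1
  have t1 := tr hG v f 0 (rr j)
  have t2 := tr hG v f (rr j) 0
  have t3 := tr hG f g 2 0
  rw [hrr] at t1 t2
  have r0 : rr 0 = 2 := rfl
  have r2 : rr 2 = 0 := rfl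
  rw [r0] at t1 t2
  rw [r0, r2] at t3
  have hgf := (hA C α z hG).2 g f hg hf
  have hd : (zl z g f).2.2.2 0 2 = decide (g = f) := by
    rw [Bool.eq_iff_iff, decide_eq_true_iff]
    exact hgf
  have hdc : decide (g = f) = decide (f = g) := by
    rw [Bool.eq_iff_iff, decide_eq_true_iff, decide_eq_true_iff]
    exact eq_comm
  -- the equality value
  have heq : (zl z u v).2.2.2 i (rr j) = decide (f = g) := by
    have e1 : (zl z u v).2.2.2 i (rr j) = (zl z f v).2.2.2 0 (rr j) := a3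
    have e2 : (zl z f v).2.2.2 0 (rr j) = (zl z v f).2.2.2 2 j := congrArg Prod.snd t1
    have e3 : (zl z v f).2.2.2 2 j = (zl z v f).2.2.2 j 2 := sy hG v f 2 j
    have e4 : (zl z v f).2.2.2 j 2 = (zl z g f).2.2.2 0 2 := b3
    rw [e1, e2, e3, e4, hd, hdc]
  constructor
  · refine Prod.ext ?_ heq
    have e1 : lb (zl z u v) i (rr j) = lb (zl z f v) 0 (rr j) := congrArg Prod.fst a1
    have e2 : lb (zl z f v) 0 (rr j) = lb (zl z v f) 2 j := congrArg Prod.fst t1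
    have e3 : lb (zl z g f) 2 0 = lb (zl z f g) 0 2 := congrArg Prod.fst t3
    show lb (zl z u v) i (rr j) = lb (zl z f g) 0 2
    rw [e1, e2, b2, e3]
  · refine Prod.ext ?_ ?_
    · have e2 : lb (zl z f v) (rr j) 0 = lb (zl z v f) j 2 := congrArg Prod.fst t2
      have e3 : lb (zl z v f) j 2 = lb (zl z g f) 0 2 := congrArg Prod.fst b1
      show lb (zl z u v) (rr j) i = lb (zl z g f) 0 2
      rw [a2, e2, e3]
    · show (zl z u v).2.2.2 (rr j) i = decide (g = f)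
      rw [sy hG, heq, hdc]

theorem inner (hG : ∀ u v, tp z ![u, v] ∈ Ga α) (hA : T_B3A)
    (hR : ∀ u v w, tp z ![u, v, w] ∈ Rr) (u v f g : ℕ) (i j : Fin 4) (hi : i < 2) (hj : j < 2)
    (hf : S0 z f) (hg : S0 z g) (hu : eqv (zl z u f) i 2) (hv : eqv (zl z u g) j 2) :
    P (zl z u v) i j = Q z f g := by
  rw [← (outer hG hA hR u u f g i j hi hj hf hg hu hv).1, dg hG u v i (rr j)]
  have h1 : ∀ i : Fin 4, i < 2 → (![0, 1, 0, 1] : Fin 4 → Fin 4) i = i := by decide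
  have h2 : ∀ i : Fin 4, i < 2 → (![0, 1, 0, 1] : Fin 4 → Fin 4) (rr i) = i := by decide
  rw [h1 i hi, h2 j hj]

end

theorem pf_B3C (hB3A : T_B3A) : T_B3C := by
  intro C α z hG hR u v F hF h0 h1 h2 h3
  have l0 : (0 : Fin 4) < 2 := by decide
  have l1 : (1 : Fin 4) < 2 := by decide
  have key : ∀ i j : Fin 4, P (zl z u v) i j = Q z (F i) (F j) := by
    have T : ∀ i j : Fin 4, P (zl z u v) (rr i) (rr j) = P (zl z v u) i j :=
      fun i j => (tr hG u v i j).symm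
    intro i j
    fin_cases i <;> fin_cases j
    · exact inner hG hB3A hR u v _ _ 0 0 l0 l0 (hF 0) (hF 0) h0 h0
    · exact inner hG hB3A hR u v _ _ 0 1 l0 l1 (hF 0) (hF 1) h0 h1
    · exact (outer hG hB3A hR u v _ _ 0 0 l0 l0 (hF 0) (hF 2) h0 h2).1
    · exact (outer hG hB3A hR u v _ _ 0 1 l0 l1 (hF 0) (hF 3) h0 h3).1
    · exact inner hG hB3A hR u v _ _ 1 0 l1 l0 (hF 1) (hF 0) h1 h0
    · exact inner hG hB3A hR u v _ _ 1 1 l1 l1 (hF 1) (hF 1) h1 h1
    · exact (outer hG hB3A hR u v _ _ 1 0 l1 l0 (hF 1) (hF 2) h1 h2).1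
    · exact (outer hG hB3A hR u v _ _ 1 1 l1 l1 (hF 1) (hF 3) h1 h3).1
    · exact (outer hG hB3A hR u v _ _ 0 0 l0 l0 (hF 0) (hF 2) h0 h2).2
    · exact (outer hG hB3A hR u v _ _ 1 0 l1 l0 (hF 1) (hF 2) h1 h2).2
    · exact (T 0 0).trans (inner hG hB3A hR v u _ _ 0 0 l0 l0 (hF 2) (hF 2) h2 h2)
    · exact (T 0 1).trans (inner hG hB3A hR v u _ _ 0 1 l0 l1 (hF 2) (hF 3) h2 h3)
    · exact (outer hG hB3A hR u v _ _ 0 1 l0 l1 (hF 0) (hF 3) h0 h3).2
    · exact (outer hG hB3A hR u v _ _ 1 1 l1 l1 (hF 1) (hF 3) h1 h3).2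
    · exact (T 1 0).trans (inner hG hB3A hR v u _ _ 1 0 l1 l0 (hF 3) (hF 2) h3 h2)
    · exact (T 1 1).trans (inner hG hB3A hR v u _ _ 1 1 l1 l1 (hF 3) (hF 3) h3 h3)
  refine ⟨fun w => ?_, fun i j => congrArg Prod.snd (key i j)⟩
  have hw : w = ![w 0, w 1] := by
    funext x
    fin_cases x <;> rfl
  have h := congrArg Prod.fst (key (w 0) (w 1))
  rw [hw]
  exact h

end Pool.Agent.H26.TU.B3C
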