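import Pool.Agent.H26.TU.B3C

/-!
Row B3D of the board tum_modules: the decoded structure is in the core class, and its blow-up is
the structure.
-/

set_option autoImplicit false

namespace Pool.Agent.H26.TU.B3D

open Pool.Agent.H85.TU
open Pool.Agent.H26.TU.B3C (LL_tp dg P)

variable {C : Type}

/-- reindexing of the type of a tuple -/
theorem reidx_tp {m n : ℕ} (y : Str bar (bD C) ℕ) (p : Fin n → ℕ) (r : Fin m → Fin n) :
    reidx r (tp y p) = tp y (p ∘ r) := rfl

section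

variable {α : Set (TB C 3)} {z : Str bar (bD (LC C)) ℕ}

/-- equality values on the diagonal -/
theorem dge (hG : ∀ u v, tp z ![u, v] ∈ Ga α) (u : ℕ) (i j : Fin 4) :
    (zl z u u).2.2.2 i j = (zl z u u).2.2.2 (![0, 1, 0, 1] i) (![0, 1, 0, 1] j) :=
  congrArg Prod.snd (dg hG u u i j)

theorem rfl' (hG : ∀ u v, tp z ![u, v] ∈ Ga α) (u v : ℕ) (i : Fin 4) : eqv (zl z u v) i i := by
  have h := (hG u v).2.2.2.2.1.1 i
  rw [LL_tp] at h
  exact h

theorem e02 (hG : ∀ u v, tp z ![u, v] ∈ Ga α) (u : ℕ) : eqv (zl z u u) 0 2 := by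
  have h := dge hG u 0 2
  have h2 : (zl z u u).2.2.2 (![0, 1, 0, 1] 0) (![0, 1, 0, 1] 2) = true := rfl' hG u u 0
  exact h.trans h2

theorem e13 (hG : ∀ u v, tp z ![u, v] ∈ Ga α) (u : ℕ) : eqv (zl z u u) 1 3 := by
  have h := dge hG u 1 3
  have h2 : (zl z u u).2.2.2 (![0, 1, 0, 1] 1) (![0, 1, 0, 1] 3) = true := rfl' hG u u 1
  exact h.trans h2

theorem e01 (hG : ∀ u v, tp z ![u, v] ∈ Ga α) (hA : T_B3A) (u v : ℕ) (hu : S0 z u) :
    eqv (zl z u v) 0 1 := by
  have h := (hG u v).2.2.1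
  rw [LL_tp] at h
  refine h ?_
  show (zl z u v).1 = false
  rw [((hA C α z hG).1 u v).1]
  exact hu

theorem tr' (hG : ∀ u v, tp z ![u, v] ∈ Ga α) (u v : ℕ) (i j k : Fin 4)
    (h1 : eqv (zl z u v) i j) (h2 : eqv (zl z u v) j k) : eqv (zl z u v) i k := by
  have h := (hG u v).2.2.2.2.1.2.2.1 i j k
  rw [LL_tp] at h
  exact h h1 h2

theorem sy' (hG : ∀ u v, tp z ![u, v] ∈ Ga α) (u v : ℕ) (i j : Fin 4)
    (h1 : eqv (zl z u v) i j) : eqv (zl z u v) j i := by
  have h := (hG u v).2.2.2.2.1.2.1 i j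
  rw [LL_tp] at h
  exact h h1

theorem e12 (hG : ∀ u v, tp z ![u, v] ∈ Ga α) (hA : T_B3A) (u : ℕ) (hu : S0 z u) :
    eqv (zl z u u) 1 2 :=
  tr' hG u u 1 0 2 (sy' hG u u 0 1 (e01 hG hA u u hu)) (e02 hG u)

/-- the type of the entries -/
theorem ty (hG : ∀ u v, tp z ![u, v] ∈ Ga α) (hR : ∀ u v w, tp z ![u, v, w] ∈ Rr) (hC : T_B3C)
    (hI : {u | S0 z u}.Infinite) (u v : ℕ) (p : Fin 4 → ℕ)
    (h0 : eqv (zl z u (Nat.nth (S0 z) (p 0))) 0 2) (h1 : eqv (zl z u (Nat.nth (S0 z) (p 1))) 1 2)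
    (h2 : eqv (zl z v (Nat.nth (S0 z) (p 2))) 0 2) (h3 : eqv (zl z v (Nat.nth (S0 z) (p 3))) 1 2) :
    (zl z u v).2.2 = tp (dec z) p := by
  obtain ⟨H1, H2⟩ := hC C α z hG hR u v (fun i => Nat.nth (S0 z) (p i))
    (fun i => Nat.nth_mem_of_infinite hI _) h0 h1 h2 h3
  refine Prod.ext ?_ ?_
  · funext x w
    exact H1 w
  · funext i j
    have h := H2 i j
    rw [h]
    show decide _ = decide _
    rw [Bool.eq_iff_iff, decide_eq_true_iff, decide_eq_true_iff]
    exact (Nat.nth_injective hI).eq_iff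

end

theorem pf_B3D (hB3A : T_B3A) (hB3B : T_B3B) (hB3C : T_B3C) : T_B3D := by
  intro C α β len z hz
  obtain ⟨hG, hR, hT⟩ := hz
  obtain ⟨W1, W2, W3, W4, W5⟩ := hB3B C α β len z ⟨hG, hR, hT⟩
  have hI : {u | S0 z u}.Infinite := by
    intro hf
    have hb : (((fun v => len (lb (zl z v v) 0 0)) '' {u | S0 z u})).Finite := hf.image _
    obtain ⟨M, hM⟩ := hb.bddAbove
    obtain ⟨v, hv, hv'⟩ := W1 (M + 1)
    have := hM ⟨v, hv, rfl⟩
    have h2 : len (lb (zl z v v) 0 0) ≤ M := this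
    omega
  have hmem : ∀ n, S0 z (Nat.nth (S0 z) n) := fun n => Nat.nth_mem_of_infinite hI n
  have hinj : Function.Injective (Nat.nth (S0 z)) := Nat.nth_injective hI
  have hex : ∀ u, S0 z u → ∃ n, Nat.nth (S0 z) n = u := by
    intro u hu
    have h : u ∈ Set.range (Nat.nth (S0 z)) := by
      rw [Nat.range_nth_of_infinite hI]
      exact hu
    exact h
  -- the last two entries of a point of sort false
  have hself0 : ∀ n, eqv (zl z (Nat.nth (S0 z) n) (Nat.nth (S0 z) n)) 0 2 := fun n => e02 hG _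
  have hself1 : ∀ n, eqv (zl z (Nat.nth (S0 z) n) (Nat.nth (S0 z) n)) 1 2 :=
    fun n => e12 hG hB3A _ (hmem n)
  have hpt : ∀ (e a b c : ℕ), eqv (zl z e (Nat.nth (S0 z) a)) 0 2 →
      eqv (zl z e (Nat.nth (S0 z) b)) 1 2 →
      (zl z e (Nat.nth (S0 z) c)).2.2 = tp (dec z) ![a, b, c, c] := by
    intro e a b c ha hb
    exact ty hG hR hB3C hI e (Nat.nth (S0 z) c) ![a, b, c, c] ha hb (hself0 c) (hself1 c)
  have hre : ∀ a b c : ℕ, reidx ![0, 1, 2] (tp (dec z) ![a, b, c, c]) = tp (dec z) ![a, b, c] := by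
    intro a b c
    rw [reidx_tp]
    have : (![a, b, c, c] : Fin 4 → ℕ) ∘ (![0, 1, 2] : Fin 3 → Fin 4) = ![a, b, c] := by
      funext i
      fin_cases i <;> rfl
    rw [this]
  refine ⟨⟨?_, ?_⟩, ?_⟩
  · intro v
    obtain ⟨e, -, h0, h1⟩ := W5 _ _ (hmem (v 0)) (hmem (v 1))
    have h := (hG e (Nat.nth (S0 z) (v 2))).2.2.2.2.2 ![0, 1, 2]
    rw [LL_tp] at h
    have h' : reidx ![0, 1, 2] (zl z e (Nat.nth (S0 z) (v 2))).2.2 ∈ α := h
    rw [hpt e _ _ _ h0 h1, hre] at h'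
    have hv : v = ![v 0, v 1, v 2] := by
      funext i
      fin_cases i <;> rfl
    rw [hv]
    exact h'
  · intro n a b
    obtain ⟨e, he, h0, h1⟩ := W5 _ _ (hmem a) (hmem b)
    obtain ⟨c', hc', hb⟩ := W4 e he n
    obtain ⟨c, rfl⟩ := hex c' hc'
    rw [hpt e _ _ _ h0 h1, hre] at hb
    exact ⟨c, hb⟩
  · have E0 : ∀ u, ∃ m, eqv (zl z u (Nat.nth (S0 z) m)) 0 2 := by
      intro u
      obtain ⟨f, hf, h⟩ := W2 u
      obtain ⟨m, rfl⟩ := hex f hf
      exact ⟨m, h⟩
    have E1 : ∀ u, ∃ m, eqv (zl z u (Nat.nth (S0 z) m)) 1 2 := by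
      intro u
      obtain ⟨f, hf, h⟩ := W3 u
      obtain ⟨m, rfl⟩ := hex f hf
      exact ⟨m, h⟩
    choose mm hmm using E0
    choose nn hnn using E1
    -- uniqueness
    have U : ∀ e m m' n n', eqv (zl z e (Nat.nth (S0 z) m)) 0 2 →
        eqv (zl z e (Nat.nth (S0 z) n)) 1 2 → eqv (zl z e (Nat.nth (S0 z) m')) 0 2 →
        eqv (zl z e (Nat.nth (S0 z) n')) 1 2 → m = m' ∧ n = n' := by
      intro e m m' n n' a1 a2 a3 a4
      have h := ty hG hR hB3C hI e e ![m, n, m', n'] a1 a2 a3 a4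
      have h1 := e02 hG e
      have h2 := e13 hG e
      unfold eqv at h1 h2
      rw [h] at h1 h2
      have h1' : decide (m = m') = true := h1
      have h2' : decide (n = n') = true := h2
      exact ⟨of_decide_eq_true h1', of_decide_eq_true h2'⟩
    have hS : ∀ u, S0 z u → Nat.nth (S0 z) (mm u) = u ∧ nn u = mm u := by
      intro u hu
      obtain ⟨n, rfl⟩ := hex u hu
      obtain ⟨h1, h2⟩ := U _ _ _ _ _ (hmm _) (hnn _) (hself0 n) (hself1 n)
      exact ⟨by rw [h1], by rw [h1, h2]⟩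
    classical
    let Φ : ℕ → UU := fun u => if S0 z u then Sum.inl (mm u) else Sum.inr (mm u, nn u)
    have s0 : ∀ u, sl (Φ u) 0 = mm u := by
      intro u
      by_cases hu : S0 z u
      · simp only [Φ, hu, if_true]
        rfl
      · simp only [Φ, hu, if_false]
        rfl
    have s1 : ∀ u, sl (Φ u) 1 = nn u := by
      intro u
      by_cases hu : S0 z u
      · simp only [Φ, hu, if_true]
        exact (hS u hu).2.symm
      · simp only [Φ, hu, if_false]
        rfl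
    have ss : ∀ u, so (Φ u) = (zl z u u).1 := by
      intro u
      by_cases hu : S0 z u
      · simp only [Φ, hu, if_true]
        exact hu.symm
      · simp only [Φ, hu, if_false]
        exact (Bool.eq_true_of_not_eq_false hu).symm
    have key : ∀ u v, (zl z u v).2.2 = tp (dec z) ![mm u, nn u, mm v, nn v] := fun u v =>
      ty hG hR hB3C hI u v ![mm u, nn u, mm v, nn v] (hmm u) (hnn u) (hmm v) (hnn v)
    have hA1 := (hB3A C α z hG).1
    have inj : Function.Injective Φ := by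
      intro u v huv
      by_contra hne
      have m1 : mm u = mm v := by rw [← s0 u, ← s0 v, huv]
      have n1 : nn u = nn v := by rw [← s1 u, ← s1 v, huv]
      have o1 : (zl z u u).1 = (zl z v v).1 := by rw [← ss u, ← ss v, huv]
      have h := (hG u v).2.2.2.1
      rw [LL_tp] at h
      refine h ?_ ?_ ?_ ?_
      · exact decide_eq_false hne
      · show (zl z u v).1 = (zl z u v).2.1
        rw [(hA1 u v).1, (hA1 u v).2, o1]
      · show (zl z u v).2.2.2 0 2 = true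
        rw [key u v]
        exact decide_eq_true m1
      · show (zl z u v).2.2.2 1 3 = true
        rw [key u v]
        exact decide_eq_true n1
    have surj : Function.Surjective Φ := by
      intro x
      rcases x with n | ⟨m, n⟩
      · refine ⟨Nat.nth (S0 z) n, ?_⟩
        have h := hinj (hS _ (hmem n)).1
        simp only [Φ, hmem n, if_true]
        rw [h]
      · obtain ⟨e, he, h0, h1⟩ := W5 _ _ (hmem m) (hmem n)
        refine ⟨e, ?_⟩
        obtain ⟨a1, a2⟩ := U _ _ _ _ _ (hmm e) (hnn e) h0 h1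
        simp only [Φ, he, if_false]
        rw [a1, a2]
    refine ⟨Equiv.ofBijective Φ ⟨inj, surj⟩, ?_⟩
    intro i v
    show (so (Φ (v 0)), so (Φ (v 1)),
      tp (dec z) ![sl (Φ (v 0)) 0, sl (Φ (v 0)) 1, sl (Φ (v 1)) 0, sl (Φ (v 1)) 1]) = z i v
    have hv : z i v = zl z (v 0) (v 1) := by
      have : v = ![v 0, v 1] := by
        funext x
        fin_cases x <;> rfl
      exact congrArg (z ()) this
    rw [hv, s0, s0, s1, s1, ss, ss]
    refine Prod.ext ?_ (Prod.ext ?_ ?_)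
    · exact (hA1 _ _).1.symm
    · exact (hA1 _ _).2.symm
    · exact (key _ _).symm

end Pool.Agent.H26.TU.B3D
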